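import Mathlib

set_option autoImplicit false

namespace Pool.Agent.Results.MP_ba261c_co.Proof

/-- the order is the intersection of `k` linear orders -/
def Realizer (α : Type) [PartialOrder α] (k : ℕ) : Prop :=
  ∃ L : Fin k → α → α → Prop, (∀ i, IsLinearOrder α (L i)) ∧ ∀ a b, a ≤ b ↔ ∀ i, L i a b

/-- Dushnik-Miller dimension -/
noncomputable def dim (α : Type) [PartialOrder α] : ℕ∞ := ⨅ (k : ℕ) (_ : Realizer α k), (k : ℕ∞)

def Irreducible (α : Type) [PartialOrder α] : Prop := ∀ x : α, dim {z : α // z ≠ x} < dim α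

def JoinIrr {α : Type} [PartialOrder α] (a : α) : Prop := ∀ S : Set α, IsLUB S a → a ∈ S

def MeetIrr {α : Type} [PartialOrder α] (a : α) : Prop := ∀ S : Set α, IsGLB S a → a ∈ S

def Critical {α : Type} [PartialOrder α] (a b : α) : Prop :=
  ¬ a ≤ b ∧ ¬ b ≤ a ∧ (∀ z, a < z → b < z) ∧ ∀ z, z < b → z < a

theorem thin {α : Type} [PartialOrder α] (h : Irreducible α) {x y : α} (hxy : x < y)
    (h1 : ∀ z, x < z → y ≤ z) (h2 : ∀ z, z < y → z ≤ x) (w : α) (wx : w ≠ x) (wy : w ≠ y) :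
    False := by
  classical
  refine absurd (h x) (not_lt.2 (le_iInf₂ fun k hk => iInf₂_le k ?_))
  obtain ⟨L, hL, hr⟩ := hk
  let π : α → {z : α // z ≠ x} := fun z => if hz : z = x then ⟨y, hxy.ne'⟩ else ⟨z, hz⟩
  have πx : π x = ⟨y, hxy.ne'⟩ := by simp [π]
  have πz : ∀ z (hz : z ≠ x), π z = ⟨z, hz⟩ := fun z hz => by simp [π, hz]
  have πy : π y = ⟨y, hxy.ne'⟩ := πz y hxy.ne'
  have inv : ∀ a b, π a = π b → a = b ∨ (a = x ∧ b = y) ∨ (a = y ∧ b = x) := by
    intro a b e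
    by_cases ha : a = x <;> by_cases hb : b = x
    · exact Or.inl (ha.trans hb.symm)
    · rw [ha, πx, πz b hb] at e
      exact Or.inr (Or.inl ⟨ha, (congrArg Subtype.val e).symm⟩)
    · rw [hb, πx, πz a ha] at e
      exact Or.inr (Or.inr ⟨congrArg Subtype.val e, hb⟩)
    · rw [πz a ha, πz b hb] at e
      exact Or.inl (congrArg Subtype.val e)
  have k0 : Nonempty (Fin k) := by
    by_contra hk
    have e := fun a b => (hr a b).2 fun i => absurd ⟨i⟩ hk
    exact wy (congrArg Subtype.val (le_antisymm (e ⟨w, wx⟩ ⟨y, hxy.ne'⟩) (e _ _)))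
  refine ⟨fun i a b => L i (π a) (π b) ∧ ¬ (a = y ∧ b = x), fun i => ?_, fun a b => ?_⟩
  · haveI := hL i
    refine { refl := ?_, trans := ?_, antisymm := ?_, total := ?_ }
    · exact fun a => ⟨refl_of (L i) _, fun e => hxy.ne' (e.1.symm.trans e.2)⟩
    · rintro a b c ⟨p1, p2⟩ ⟨q1, q2⟩
      refine ⟨trans_of (L i) p1 q1, ?_⟩
      rintro ⟨rfl, rfl⟩
      rw [πx, ← πy] at q1
      rcases inv _ _ (antisymm_of (L i) p1 q1) with e | e | e
      · exact q2 ⟨e.symm, rfl⟩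
      · exact hxy.ne' e.1
      · exact p2 e
    · rintro a b ⟨p1, p2⟩ ⟨q1, q2⟩
      rcases inv _ _ (antisymm_of (L i) p1 q1) with e | e | e
      · exact e
      · exact absurd ⟨e.2, e.1⟩ q2
      · exact absurd e p2
    · intro a b
      by_cases e1 : a = y ∧ b = x
      · right
        obtain ⟨rfl, rfl⟩ := e1
        exact ⟨by rw [πx, πy]; exact refl_of (L i) _, fun e => hxy.ne e.1⟩
      by_cases e2 : b = y ∧ a = x
      · left
        obtain ⟨rfl, rfl⟩ := e2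
        exact ⟨by rw [πx, πy]; exact refl_of (L i) _, fun e => hxy.ne e.1⟩
      exact (total_of (L i) (π a) (π b)).imp (fun p => ⟨p, e1⟩) fun p => ⟨p, e2⟩
  · rw [forall_and, ← hr, forall_const]
    by_cases ha : a = x <;> by_cases hb : b = x
    · subst ha hb; simp [hxy.ne]
    · subst ha
      rw [πx, πz b hb]
      exact ⟨fun p => ⟨h1 b (lt_of_le_of_ne p (Ne.symm hb)), fun e => hb e.2⟩,
        fun p => hxy.le.trans p.1⟩
    · subst hb
      rw [πx, πz a ha]
      exact ⟨fun p => ⟨p.trans hxy.le, fun e => absurd (e.1 ▸ p) hxy.not_ge⟩,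
        fun p => h2 a (lt_of_le_of_ne p.1 fun e => p.2 ⟨e, rfl⟩)⟩
    · rw [πz a ha, πz b hb]
      exact ⟨fun p => ⟨p, fun e => hb e.2⟩, fun p => p.1⟩

theorem result (P : Type) [Fintype P] [PartialOrder P] (h : Irreducible P) (x : P)
    (hJ : JoinIrr x) (hM : MeetIrr x) : (∃ b, Critical x b) ∧ ∃ a, Critical a x := by
  have nbot : ∃ w, ¬ x ≤ w := by
    by_contra hc
    push Not at hc
    exact hJ ∅ (isLUB_empty_iff.2 hc)
  have ntop : ∃ w, ¬ w ≤ x := by
    by_contra hc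
    push Not at hc
    exact hM ∅ (isGLB_empty_iff.2 hc)
  constructor
  · have : ∃ b, ¬ b ≤ x ∧ ∀ z, x < z → b ≤ z := by
      by_contra hc
      push Not at hc
      refine lt_irrefl x (hM (Set.Ioi x) ⟨fun z hz => hz.le, fun b hb => ?_⟩)
      by_contra hb'
      obtain ⟨z, h1, h2⟩ := hc b hb'
      exact h2 (hb h1)
    obtain ⟨b, hb⟩ := (Set.toFinite {b | ¬ b ≤ x ∧ ∀ z, x < z → b ≤ z}).exists_minimal this
    have low : ∀ z, z < b → z ≤ x := by
      intro z hz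
      by_contra hc
      exact hz.not_ge (hb.2 ⟨hc, fun u hu => hz.le.trans (hb.1.2 u hu)⟩ hz.le)
    by_cases hx : x ≤ b
    · obtain ⟨w, hw⟩ := nbot
      exact (thin h (lt_of_le_not_ge hx hb.1.1) hb.1.2 low w (fun e => hw e.ge)
        (fun e => hw (e ▸ hx))).elim
    · exact ⟨b, hx, hb.1.1, fun z hz => lt_of_le_of_ne (hb.1.2 z hz) fun e => hx (e ▸ hz.le),
        fun z hz => lt_of_le_of_ne (low z hz) fun e => hx (e ▸ hz.le)⟩
  · have : ∃ a, ¬ x ≤ a ∧ ∀ z, z < x → z ≤ a := by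
      by_contra hc
      push Not at hc
      refine lt_irrefl x (hJ (Set.Iio x) ⟨fun z hz => hz.le, fun b hb => ?_⟩)
      by_contra hb'
      obtain ⟨z, h1, h2⟩ := hc b hb'
      exact h2 (hb h1)
    obtain ⟨a, ha⟩ := (Set.toFinite {a | ¬ x ≤ a ∧ ∀ z, z < x → z ≤ a}).exists_maximal this
    have high : ∀ z, a < z → x ≤ z := by
      intro z hz
      by_contra hc
      exact hz.not_ge (ha.2 ⟨hc, fun u hu => (ha.1.2 u hu).trans hz.le⟩ hz.le)
    by_cases hx : a ≤ x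
    · obtain ⟨w, hw⟩ := ntop
      exact (thin h (lt_of_le_not_ge hx ha.1.1) high ha.1.2 w (fun e => hw (e ▸ hx))
        (fun e => hw e.le)).elim
    · exact ⟨a, hx, ha.1.1, fun z hz => lt_of_le_of_ne (high z hz) fun e => hx (e ▸ hz.le),
        fun z hz => lt_of_le_of_ne (ha.1.2 z hz) fun e => hx (e ▸ hz.le)⟩

end Pool.Agent.Results.MP_ba261c_co.Proof
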